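import Pool.Agent.Helper74_RL.Fin
import Pool.Agent.Helper59_RLB.Bic
import Pool.Agent.Helper63_RLB.Det
import Pool.Agent.Helper47_RLB.Chn
import Pool.Agent.Helper47_RLB.Kpt
import Pool.Agent.Helper19_RLB.Dif
import Pool.Agent.Helper26_RLB.Dns
import Pool.Agent.Helper26_RLB.Sph
import Pool.Agent.Helper75_RLB.G1b
import Pool.Agent.Helper75_RLB.Mkc
import Pool.Agent.Helper65_RLB.Len
import Pool.Agent.Helper53_RLB.Lim
import Pool.Agent.Helper9_RLB.Opn
import Pool.Agent.Helper76_RLB.Prj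
import Pool.Agent.Helper11_RLB.Rmj
import Pool.Agent.Helper50_RLB.Slo
import Pool.Agent.Helper50_RLB.Sup
import Pool.Agent.Helper31_RLB.Tr1
import Pool.Agent.Helper31_RLB.Tr2
import Pool.Agent.Helper7_RLB.App
import Pool.Agent.Helper39_RLB.G1m
import Pool.Agent.Helper39_RLB.Phi
import Pool.Agent.Helper49_RLB.Hpl
import Pool.Agent.Helper49_RLB.Sgl
import Pool.Agent.Helper98_RLB.INB
import Pool.Agent.Helper98_RLB.OUT
import Pool.Agent.Helper48_RLB.Pgh
import Pool.Agent.Helper48_RLB.Vol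
import Pool.Agent.Helper4_RLB.Psi
import Pool.Agent.Helper4_RLB.Ub
import Pool.Agent.Helper21_RLB.S2n
import Pool.Agent.Helper21_RLB.Tub
import Pool.Agent.Helper74_RLB.Clo
import Pool.Agent.Helper74_RLB.Lb

/-!
# Part II is proved: from `MetricData` to the final statement (MP_62da59_gt)
-/

namespace Pool.Agent.RLim

theorem g1mP : G1mStmt := H39.g1m H19.dif H39.phi
theorem g1bP : G1bStmt := H75.g1b H19.dif H39.phi H49.hpl H49.sgl g1mP
theorem inbP : InbStmt := H98.inb H4.psi H49.sgl g1bP H50.sup H65.len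
theorem outP : OutStmt := H98.out inbP H50.sup H65.len H49.hpl
theorem ubP : UbStmt := H4.ub outP inbP H49.hpl H4.psi H65.len

theorem lbP : LbStmt := H74.lb H50.slo H49.hpl H49.sgl H39.phi g1mP g1bP

theorem partIIP : PartIIStmt :=
  partII
    (ilm (ddb H65.len lbP ubP)
      (H11.rmj H4.psi H75.mkc (H31.tr1 H39.phi H4.psi) (H31.tr2 H19.dif H39.phi H4.psi g1mP)
        g1mP H74.clo H59.bic)
      H74.clo H59.bic (H53.lim H76.prj (H76.tbd H76.prj)) (H48.pgh H76.prj) (H48.vol H49.hpl))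
    (H63.det H21.s2n H9.opn H47.chn H21.tub H26.sph (H26.dns H21.tub H7.app) H47.kpt)
    H63.bih

end Pool.Agent.RLim
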