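import Pool.Agent.Helper1_RL.Defs
import Pool.Agent.Helper36_RF.ClBr

/-!
# Part II of MP_62da59_gt (helper74): blow-ups, charts, definitions
-/

noncomputable section

open scoped ContDiff Topology ENNReal RealInnerProductSpace BoundedContinuousFunction
set_option maxSynthPendingDepth 3
open Set Metric

namespace Pool.Agent.RLim

open Pool.Agent.RF
open Pool.Agent.SecondKind (mat eqE)

/-! ### the Hopf map -/

/-- the quadratic Hopf map `(2 u z̄, |u|² - |z|²)` -/
def hq (X : E4) : E3 := WithLp.toLp 2 ![2 * (X 0 * X 2 + X 1 * X 3), 2 * (X 1 * X 2 - X 0 * X 3),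
  X 0 ^ 2 + X 1 ^ 2 - X 2 ^ 2 - X 3 ^ 2]

/-- the north pole -/
def npole : E3 := WithLp.toLp 2 ![0, 0, 1]

/-- the direction of `X`, with a junk value at `0` -/
def hd (X : E4) : E3 := if X = 0 then npole else hopf X

/-- the direction of `Phi0 i (a,b)`, a function of `b` only -/
def sg (i : Bool) (q : E4) : E3 :=
  (1 + q 2 ^ 2 + q 3 ^ 2)⁻¹ • (if i then WithLp.toLp 2 ![2 * q 2, 2 * q 3, q 2 ^ 2 + q 3 ^ 2 - 1]
  else WithLp.toLp 2 ![2 * q 2, -(2 * q 3), 1 - (q 2 ^ 2 + q 3 ^ 2)])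

theorem norm_sq4 (x : E4) : ‖x‖ ^ 2 = x 0 ^ 2 + x 1 ^ 2 + x 2 ^ 2 + x 3 ^ 2 := by
  rw [EuclideanSpace.norm_sq_eq]
  simp [Fin.sum_univ_four]

theorem norm_sq3 (x : E3) : ‖x‖ ^ 2 = x 0 ^ 2 + x 1 ^ 2 + x 2 ^ 2 := by
  rw [EuclideanSpace.norm_sq_eq]
  simp [Fin.sum_univ_three]

@[simp] theorem hq_0 (x : E4) : hq x 0 = 2 * (x 0 * x 2 + x 1 * x 3) := rfl
@[simp] theorem hq_1 (x : E4) : hq x 1 = 2 * (x 1 * x 2 - x 0 * x 3) := rfl
@[simp] theorem hq_2 (x : E4) : hq x 2 = x 0 ^ 2 + x 1 ^ 2 - x 2 ^ 2 - x 3 ^ 2 := rfl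

theorem hopf_eq (x : E4) : hopf x = (‖x‖ ^ 2)⁻¹ • hq x := by
  ext i
  fin_cases i <;> simp [hopf, hq, div_eq_inv_mul]

theorem norm_hq (x : E4) : ‖hq x‖ = ‖x‖ ^ 2 := by
  have h : ‖hq x‖ ^ 2 = (‖x‖ ^ 2) ^ 2 := by
    rw [norm_sq3, norm_sq4]
    simp only [hq_0, hq_1, hq_2]
    ring
  exact (pow_left_inj₀ (norm_nonneg _) (by positivity) two_ne_zero).1 h

theorem norm_hopf {x : E4} (h : x ≠ 0) : ‖hopf x‖ = 1 := by
  rw [hopf_eq, norm_smul, norm_hq, norm_inv, norm_pow, norm_norm]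
  exact inv_mul_cancel₀ (by positivity)

theorem norm_npole : ‖npole‖ = 1 := by
  have h : ‖npole‖ ^ 2 = 1 := by
    rw [norm_sq3]; simp [npole]
  exact (pow_eq_one_iff_of_nonneg (norm_nonneg _) two_ne_zero).1 h

theorem norm_hd (x : E4) : ‖hd x‖ = 1 := by
  unfold hd
  split_ifs with h
  · exact norm_npole
  · exact norm_hopf h

theorem hd_of_ne {x : E4} (h : x ≠ 0) : hd x = hopf x := if_neg h

theorem sq_smul_hd (x : E4) : ‖x‖ ^ 2 • hd x = hq x := by
  unfold hd
  split_ifs with h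
  · subst h
    ext i
    fin_cases i <;> simp
  · rw [hopf_eq, smul_smul, mul_inv_cancel₀ (by positivity), one_smul]

/-- a vector `v` with `|x|² v = hq x`, `x ≠ 0`, is `hopf x` -/
theorem eq_hopf {x : E4} (hx : x ≠ 0) {v : E3} (h : ‖x‖ ^ 2 • v = hq x) : v = hopf x := by
  rw [hopf_eq, ← h, smul_smul, inv_mul_cancel₀ (by positivity), one_smul]

theorem norm_sg (i : Bool) (q : E4) : ‖sg i q‖ = 1 := by
  have h : ‖sg i q‖ ^ 2 = 1 := by
    rw [norm_sq3]
    cases i
    · simp [sg]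
      field_simp
      ring
    · simp [sg]
      field_simp
      ring
  exact (pow_eq_one_iff_of_nonneg (norm_nonneg _) two_ne_zero).1 h

theorem norm_Phi0 (i : Bool) (q : E4) :
    ‖Phi0 i q‖ ^ 2 = (q 0 ^ 2 + q 1 ^ 2) * (1 + q 2 ^ 2 + q 3 ^ 2) := by
  rw [norm_sq4]
  cases i <;> simp [Phi0] <;> ring

theorem hq_Phi0 (i : Bool) (q : E4) : ‖Phi0 i q‖ ^ 2 • sg i q = hq (Phi0 i q) := by
  have hp : (1 + q 2 ^ 2 + q 3 ^ 2 : ℝ) ≠ 0 := by positivity
  rw [norm_Phi0]
  cases i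
  · ext j
    fin_cases j
    · simp [sg, Phi0]; field_simp; ring
    · simp [sg, Phi0]; field_simp; ring
    · simp [sg, Phi0]; field_simp; ring
  · ext j
    fin_cases j
    · simp [sg, Phi0]; field_simp; ring
    · simp [sg, Phi0]; field_simp; ring
    · simp [sg, Phi0]; field_simp; ring

theorem Phi0_eq_zero {i : Bool} {q : E4} : Phi0 i q = 0 ↔ q 0 = 0 ∧ q 1 = 0 := by
  have hp : (0:ℝ) < 1 + q 2 ^ 2 + q 3 ^ 2 := by positivity
  have h1 : ‖Phi0 i q‖ ^ 2 = 0 ↔ Phi0 i q = 0 := by simp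
  rw [← h1, norm_Phi0, mul_eq_zero]
  constructor
  · rintro (h | h)
    · constructor <;> nlinarith [sq_nonneg (q 0), sq_nonneg (q 1)]
    · linarith
  · rintro ⟨h, h'⟩
    left; simp [h, h']

theorem hopf_Phi0 {i : Bool} {q : E4} (h : Phi0 i q ≠ 0) : hopf (Phi0 i q) = sg i q :=
  (eq_hopf h (hq_Phi0 i q)).symm

theorem hq_smul (r : ℝ) (x : E4) : hq (r • x) = r ^ 2 • hq x := by
  ext i
  fin_cases i <;> simp [hq] <;> ring

theorem hopf_smul {r : ℝ} (hr : r ≠ 0) {x : E4} (hx : x ≠ 0) : hopf (r • x) = hopf x := by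
  refine (eq_hopf (smul_ne_zero hr hx) ?_).symm
  rw [hq_smul, norm_smul, mul_pow, Real.norm_eq_abs, sq_abs, mul_smul, ← hd_of_ne hx, sq_smul_hd]

/-! ### the blow-ups -/

variable (D : MetricData)

/-- The blow-up of `ℝ⁴` at `P 0, …, P (j-1)`; the component `k` of the second entry is `w k` times
the direction at `P k`. -/
def Bl (j : ℕ) : Set (E4 × (Fin j → E3)) :=
  {p | ∀ k : Fin j, ‖p.2 k‖ = D.w k ∧ ‖p.1 - D.P k‖ ^ 2 • p.2 k = D.w k • hq (p.1 - D.P k)}

/-- The blow-up of `ℝ⁴` at all the points `P k`. -/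
def BlI : Set (E4 × (ℕ →ᵇ E3)) :=
  {p | ∀ k : ℕ, ‖p.2 k‖ = D.w k ∧ ‖p.1 - D.P k‖ ^ 2 • p.2 k = D.w k • hq (p.1 - D.P k)}

/-- the chart map `q ↦ P k + w k Phi0 i q` -/
def cm (k : ℕ) (i : Bool) (q : E4) : E4 := D.P k + D.w k • Phi0 i q

theorem norm_w_smul {v : E3} (hv : ‖v‖ = 1) (k : ℕ) : ‖D.w k • v‖ = D.w k := by
  rw [norm_smul, hv, mul_one, Real.norm_of_nonneg (D.w_pos k).le]

theorem dir_hd (k : ℕ) (X : E4) : ‖D.w k • hd (X - D.P k)‖ = D.w k ∧
    ‖X - D.P k‖ ^ 2 • (D.w k • hd (X - D.P k)) = D.w k • hq (X - D.P k) := by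
  refine ⟨norm_w_smul D (norm_hd _) k, ?_⟩
  rw [smul_comm, sq_smul_hd]

theorem dir_sg (k : ℕ) (i : Bool) (q : E4) : ‖D.w k • sg i q‖ = D.w k ∧
    ‖cm D k i q - D.P k‖ ^ 2 • (D.w k • sg i q) = D.w k • hq (cm D k i q - D.P k) := by
  refine ⟨norm_w_smul D (norm_sg _ _) k, ?_⟩
  have h : cm D k i q - D.P k = D.w k • Phi0 i q := by simp [cm]
  rw [h, hq_smul, norm_smul, mul_pow, Real.norm_eq_abs, sq_abs, ← hq_Phi0, smul_comm]
  rw [mul_smul]

/-- the main parametrization -/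
def psi0 (j : ℕ) (X : E4) : Bl D j :=
  ⟨(X, fun k => D.w k • hd (X - D.P k)), fun k => dir_hd D k X⟩

/-- the parametrizations near the exceptional spheres -/
def psi1 (j : ℕ) (k : Fin j) (i : Bool) (q : E4) : Bl D j :=
  ⟨(cm D k i q, fun l => if l = k then D.w k • sg i q else D.w l • hd (cm D k i q - D.P l)), by
    intro l
    by_cases h : l = k
    · subst h
      simpa using dir_sg D l i q
    · simpa [h] using dir_hd D l (cm D k i q)⟩

/-- the domain of the main chart -/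
def U0 (j : ℕ) : Set E4 := {X | ∀ k < j, X ≠ D.P k}

/-- the domain of the charts near the exceptional spheres: `‖Phi0 i q‖ < 8` -/
def U1 : Set E4 := {q | (q 0 ^ 2 + q 1 ^ 2) * (1 + q 2 ^ 2 + q 3 ^ 2) < 64}

/-- the metric in the charts near the exceptional spheres -/
def G1 (j : ℕ) (k : Fin j) (i : Bool) (q : E4) : Bil E4 :=
  if q 0 ≠ 0 ∨ q 1 ≠ 0 then pullb (D.g j) (cm D k i) q
  else Classical.choose (D.ext j k k.2 i) q

/-- the chart of the final definitions given by an open set `U` of `ℝ⁴`, a parametrization and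
a field of bilinear forms -/
def mkC {M : Type} (U : Set E4) (ψ : E4 → M) (G : E4 → Bil E4) : Chart 4 M :=
  ⟨(eqE 4).symm ⁻¹' U, fun y => ψ ((eqE 4).symm y), mat G⟩

/-- the atlas of the blow-up -/
def atl (j : ℕ) : Set (Chart 4 (Bl D j)) :=
  {C | C = mkC (U0 D j) (psi0 D j) (D.g j) ∨
    ∃ (k : Fin j) (i : Bool), C = mkC U1 (psi1 D j k i) (G1 D j k i)}

/-- the Riemannian distance of the blow-up -/
def dd (j : ℕ) (x y : Bl D j) : ℝ := sInf {L | IsLen (atl D j) x y L}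

/-- `IsSeg` for `mkC` -/
def ESeg {M : Type} (U : Set E4) (ψ : E4 → M) (G : E4 → Bil E4) (x y : M) (L : ℝ) : Prop :=
  ∃ c : ℝ → E4, ContDiff ℝ 1 c ∧ (∀ t ∈ Icc (0:ℝ) 1, c t ∈ U) ∧ ψ (c 0) = x ∧ ψ (c 1) = y ∧
    L = ∫ t in (0:ℝ)..1, √(G (c t) (deriv c t) (deriv c t))

theorem mkC_quad {M : Type} (U : Set E4) (ψ : E4 → M) (G : E4 → Bil E4) (x v : E4) :
    (mkC U ψ G).quad (eqE 4 x) (eqE 4 v) = G x v v := by
  unfold Chart.quad mkC mat
  simp only [ContinuousLinearEquiv.symm_apply_apply, eqE]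
  conv_rhs => rw [H9.sum_eb v]
  simp only [map_sum, _root_.sum_apply, map_smul, _root_.smul_apply, smul_eq_mul]
  rw [Finset.sum_comm]
  refine Finset.sum_congr rfl fun i _ => ?_
  rw [Finset.mul_sum]
  refine Finset.sum_congr rfl fun j _ => ?_
  simp
  ring

theorem mkC_quad' {M : Type} (U : Set E4) (ψ : E4 → M) (G : E4 → Bil E4) (x v : Fin 4 → ℝ) :
    (mkC U ψ G).quad x v = G ((eqE 4).symm x) ((eqE 4).symm v) ((eqE 4).symm v) := by
  have := mkC_quad U ψ G ((eqE 4).symm x) ((eqE 4).symm v)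
  simpa using this

theorem isSeg_mkC {M : Type} {U : Set E4} {ψ : E4 → M} {G : E4 → Bil E4} {x y : M} {L : ℝ} :
    IsSeg (mkC U ψ G) x y L ↔ ESeg U ψ G x y L := by
  constructor
  · rintro ⟨c, hc, hU, h0, h1, rfl⟩
    refine ⟨fun t => (eqE 4).symm (c t), (eqE 4).symm.contDiff.comp hc, hU, h0, h1, ?_⟩
    refine intervalIntegral.integral_congr fun t _ => ?_
    have hd : deriv (fun t => (eqE 4).symm (c t)) t = (eqE 4).symm (deriv c t) :=
      ((eqE 4).symm.toContinuousLinearMap.hasFDerivAt.comp_hasDerivAt t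
        (hc.differentiable one_ne_zero t).hasDerivAt).deriv
    simp only [mkC_quad', hd]
  · rintro ⟨c, hc, hU, h0, h1, rfl⟩
    refine ⟨fun t => eqE 4 (c t), (eqE 4).contDiff.comp hc, fun t ht => ?_, ?_, ?_, ?_⟩
    · simpa [mkC] using hU t ht
    · simpa [mkC] using h0
    · simpa [mkC] using h1
    · refine intervalIntegral.integral_congr fun t _ => ?_
      have hd : deriv (fun t => eqE 4 (c t)) t = eqE 4 (deriv c t) :=
        ((eqE 4).toContinuousLinearMap.hasFDerivAt.comp_hasDerivAt t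
          (hc.differentiable one_ne_zero t).hasDerivAt).deriv
      simp only [hd, mkC_quad]

/-! ### the limit space -/

theorem w_le_one (k : ℕ) : D.w k ≤ 1 / 128 := by
  have h1 := D.w_le k
  have h2 := D.s_le k
  have h3 : (1:ℝ) / 2 ^ (k + 3) ≤ 1 / 8 := by
    rw [div_le_div_iff₀ (by positivity) (by norm_num)]
    have : (2:ℝ) ^ (k + 3) = 8 * 2 ^ k := by ring
    have h4 : (1:ℝ) ≤ 2 ^ k := one_le_pow₀ (by norm_num)
    rw [this]; linarith
  linarith

/-- a bounded function from a field of vectors with norms `w k` -/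
def bcf (f : ℕ → E3) (hf : ∀ k, ‖f k‖ = D.w k) : ℕ →ᵇ E3 :=
  BoundedContinuousFunction.ofNormedAddCommGroupDiscrete f 1 fun k => by
    rw [hf]; have := w_le_one D k; linarith

@[simp] theorem bcf_apply (f : ℕ → E3) (hf : ∀ k, ‖f k‖ = D.w k) (k : ℕ) : bcf D f hf k = f k := rfl

/-- the projection of the limit space to the `j`-th blow-up -/
def prj (j : ℕ) (y : BlI D) : Bl D j := ⟨(y.1.1, fun k => y.1.2 k), fun k => y.2 k⟩

/-- a section of `prj` -/
def sec (j : ℕ) (p : Bl D j) : BlI D :=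
  ⟨(p.1.1, bcf D (fun k => if h : k < j then p.1.2 ⟨k, h⟩ else D.w k • hd (p.1.1 - D.P k)) (by
    intro k
    by_cases h : k < j
    · simpa [h] using (p.2 ⟨k, h⟩).1
    · simpa [h] using (dir_hd D k p.1.1).1)), by
    intro k
    by_cases h : k < j
    · simpa [h] using p.2 ⟨k, h⟩
    · simpa [h] using dir_hd D k p.1.1⟩

/-- the main section `ℝ⁴ → BlI` -/
def psiI (X : E4) : BlI D :=
  ⟨(X, bcf D (fun k => D.w k • hd (X - D.P k)) fun k => (dir_hd D k X).1), fun k => dir_hd D k X⟩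

/-- the exceptional sphere `l` -/
def sphI (l : ℕ) (v : sphere (0 : E3) 1) : BlI D :=
  ⟨(D.P l, bcf D (fun k => if k = l then D.w l • (v : E3) else D.w k • hd (D.P l - D.P k)) (by
    intro k
    by_cases h : k = l
    · subst h
      simpa using norm_w_smul D (mem_sphere_zero_iff_norm.1 v.2) k
    · simpa [h] using (dir_hd D k (D.P l)).1)), by
    intro k
    by_cases h : k = l
    · subst h
      refine ⟨by simpa using norm_w_smul D (mem_sphere_zero_iff_norm.1 v.2) k, ?_⟩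
      have h0 : hq (0 : E4) = 0 := by
        ext i
        fin_cases i <;> simp
      simp [h0]
    · simpa [h] using dir_hd D k (D.P l)⟩

/-- the base point, far away from all the centres -/
def X0 : E4 := WithLp.toLp 2 ![10, 0, 0, 0]

/-! ### bi-Lipschitz distances -/

/-- `d` is a distance, bi-Lipschitz to `dist` with constants `c`, `C` -/
structure IsBil {Y : Type} [MetricSpace Y] (d : Y → Y → ℝ) (c C : ℝ) : Prop where
  c_pos : 0 < c
  self : ∀ x, d x x = 0
  symm : ∀ x y, d x y = d y x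
  tri : ∀ x y z, d x z ≤ d x y + d y z
  low : ∀ x y, c * dist x y ≤ d x y
  up : ∀ x y, d x y ≤ C * dist x y

section

variable {Y : Type} [inst : MetricSpace Y] {d : Y → Y → ℝ} {c C : ℝ}

/-- the auxiliary metric space with distance `d` -/
abbrev bilAux (h : IsBil d c C) : MetricSpace Y where
  dist := d
  dist_self := h.self
  dist_comm := h.symm
  dist_triangle := h.tri
  eq_of_dist_eq_zero := by
    intro x y hxy
    have h1 := h.low x y
    have h2 : d x y = 0 := hxy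
    rw [h2] at h1
    have h3 : dist x y ≤ 0 := by
      by_contra h4
      push Not at h4
      have := mul_pos h.c_pos h4
      linarith
    exact dist_le_zero.1 h3

theorem bilAux_top (h : IsBil d c C) :
    inst.toPseudoMetricSpace.toUniformSpace.toTopologicalSpace =
      (bilAux h).toPseudoMetricSpace.toUniformSpace.toTopologicalSpace := by
  apply TopologicalSpace.ext_iff_nhds.2
  intro x
  have h1 := (@Metric.nhds_basis_ball Y inst.toPseudoMetricSpace x)
  have h2 := (@Metric.nhds_basis_ball Y (bilAux h).toPseudoMetricSpace x)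
  refine h1.ext h2 ?_ ?_
  · intro r hr
    refine ⟨c * r, mul_pos h.c_pos hr, fun y hy => ?_⟩
    have h3 : d y x < c * r := hy
    have h4 := (h.low y x).trans_lt h3
    exact (mul_lt_mul_iff_right₀ h.c_pos).1 h4
  · intro r hr
    refine ⟨r / (|C| + 1), by positivity, fun y hy => ?_⟩
    have h3 : dist y x < r / (|C| + 1) := hy
    have h4 : d y x ≤ |C| * dist y x := (h.up y x).trans
      (mul_le_mul_of_nonneg_right (le_abs_self C) dist_nonneg)
    have h5 : (|C| + 1) * dist y x < r := by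
      rw [lt_div_iff₀ (by positivity)] at h3
      linarith
    have h6 : d y x < r := by nlinarith [@dist_nonneg _ _ y x]
    exact h6

/-- the metric space with distance `d` and (definitionally) the same topology -/
abbrev bilMet (h : IsBil d c C) : MetricSpace Y := (bilAux h).replaceTopology (bilAux_top h)

theorem bilMet_dist (h : IsBil d c C) (x y : Y) :
    (bilMet h).toPseudoMetricSpace.toDist.dist x y = d x y := rfl

theorem bilMet_top (h : IsBil d c C) :
    (bilMet h).toPseudoMetricSpace.toUniformSpace.toTopologicalSpace =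
      inst.toPseudoMetricSpace.toUniformSpace.toTopologicalSpace := rfl

end

end Pool.Agent.RLim
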