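import Pool.Agent.Helper74_RL.Stmts

/-!
# Assembly of part II (helper74, MP_62da59_gt)
-/

noncomputable section

open scoped ContDiff Topology ENNReal RealInnerProductSpace BoundedContinuousFunction
set_option maxSynthPendingDepth 3
open Set Metric

namespace Pool.Agent.RLim

open Pool.Agent.RF

theorem ddb (hL : LenStmt) (hLB : LbStmt) (hUB : UbStmt) : DdbStmt := by
  intro D
  obtain ⟨c, hc, h1⟩ := hLB D
  obtain ⟨C, hC, h2⟩ := hUB D
  refine ⟨c, C, hc, hC, fun j => ?_⟩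
  have hex : ∀ x y, ∃ L, IsLen (atl D j) x y L := fun x y => by
    obtain ⟨L, hL1, _⟩ := h2 j x y
    exact ⟨L, hL1⟩
  obtain ⟨_, _, _, _, h5⟩ := hL (Bl D j) (atl D j)
  obtain ⟨hg, hs, hsy, ht⟩ := h5 hex
  refine ⟨⟨hc, hs, hsy, ht, fun x y => ?_, fun x y => ?_⟩, hg⟩
  · exact (hg x y).2 fun L hL1 => h1 j x y L hL1
  · obtain ⟨L, hL1, hL2⟩ := h2 j x y
    exact ((hg x y).1 hL1).trans hL2

theorem ilm (hD : DdbStmt) (hR : RmjStmt) (hC : CloStmt) (hB : BicStmt) (hL : LimStmt)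
    (hP : PghStmt) (hV : VolStmt) : IlmStmt := by
  intro D
  obtain ⟨c, C, hc, hCp, hj⟩ := hD D
  have h : ∀ j, IsBil (dd D j) c C := fun j => (hj j).1
  obtain ⟨σ, d, hσ, hd, hu⟩ := hL D c C hCp h
  obtain ⟨v, hv, hvol⟩ := hV D c C hCp
  refine ⟨d, c, C, hd, v, hv, ?_, ?_⟩
  · refine hB _ d c C hd ?_
    exact (hC D).2.completeSpace_coe
  · refine ⟨fun i => Bl D (σ i), fun i => bilMet (h (σ i)), fun i => atl D (σ i),
      fun i => psi0 D (σ i) X0, fun i => hR D (σ i) c C (h (σ i)) (hj (σ i)).2,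
      fun i => hvol (σ i) (h (σ i)), hP D c C h σ d hd hCp hσ hu⟩

/-- part II -/
theorem partII (hI : IlmStmt) (hDet : DetStmt) (hBih : BihStmt) : PartIIStmt := by
  intro D
  obtain ⟨d, c, C, hd, v, hv, hlim⟩ := hI D
  refine ⟨1, v, zero_le_one, hv, BlI D, bilMet hd, psiI D X0, hlim, fun S hS => ?_⟩
  exact hDet D S ((hBih _ d c C hd S).trans hS)

end Pool.Agent.RLim
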