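import Pool.Agent.Helper74_RL.Base

/-!
# Statements of the modules of part II (helper74, MP_62da59_gt)
-/

noncomputable section

open scoped ContDiff Topology ENNReal RealInnerProductSpace BoundedContinuousFunction
set_option maxSynthPendingDepth 3
open Set Metric

namespace Pool.Agent.RLim

open Pool.Agent.RF
open Pool.Agent.SecondKind (mat eqE ricci)

/-! ## A. the Hopf map and the chart maps -/

/-- HPL -/
def HplStmt : Prop :=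
  ContDiffOn ℝ ∞ hopf {X : E4 | X ≠ 0} ∧
  (∀ X Y : E4, X ≠ 0 → Y ≠ 0 → ‖hopf X - hopf Y‖ ≤ 4 * ‖X - Y‖ / ‖X‖) ∧
  ∀ X : E4, X ≠ 0 → ∀ V, ‖fderiv ℝ hopf X V‖ ≤ 4 * ‖V‖ / ‖X‖

/-- SGL -/
def SglStmt : Prop :=
  (∀ i, ContDiff ℝ ∞ (sg i)) ∧ (∀ i q V, ‖fderiv ℝ (sg i) q V‖ ≤ 4 * ‖V‖) ∧
  (∀ i q q', q 2 ^ 2 + q 3 ^ 2 ≤ 4 → q' 2 ^ 2 + q' 3 ^ 2 ≤ 4 →
    (q 2 - q' 2) ^ 2 + (q 3 - q' 3) ^ 2 ≤ 25 / 4 * ‖sg i q - sg i q'‖ ^ 2) ∧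
  (∀ v : E3, ‖v‖ = 1 → ∃ i, ∃ q : E4, q 2 ^ 2 + q 3 ^ 2 ≤ 1 ∧ sg i q = v) ∧
  ∀ (i : Bool) (q : E4) (v : E3), q 2 ^ 2 + q 3 ^ 2 ≤ 1 → ‖v‖ = 1 →
    (¬ ∃ q' : E4, q' 2 ^ 2 + q' 3 ^ 2 ≤ 4 ∧ sg i q' = v) →
    1 / 2 ≤ ‖sg i q - v‖ ∧ ∃ q' : E4, q' 2 ^ 2 + q' 3 ^ 2 ≤ 1 ∧ sg (!i) q' = v

/-- PHI -/
def PhiStmt : Prop :=
  (∀ i, ContDiff ℝ ∞ (Phi0 i)) ∧
  (∀ i q V, q 0 ^ 2 + q 1 ^ 2 ≤ 1 → q 2 ^ 2 + q 3 ^ 2 ≤ 4 →
    ‖fderiv ℝ (Phi0 i) q V‖ ^ 2 ≤ 9 * ‖V‖ ^ 2) ∧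
  (∀ (i : Bool) (q : E4), (q 0 ≠ 0 ∨ q 1 ≠ 0) → (fderiv ℝ (Phi0 i) q).IsInvertible) ∧
  ∀ (D : MetricData) (k : ℕ) (i : Bool), ContDiff ℝ ∞ (cm D k i) ∧
    ∀ q V, fderiv ℝ (cm D k i) q V = D.w k • fderiv ℝ (Phi0 i) q V

/-! ## B. charts of the blow-ups -/

/-- PSI -/
def PsiStmt : Prop := ∀ (D : MetricData) (j : ℕ),
  Topology.IsOpenEmbedding (fun X : U0 D j => psi0 D j X) ∧
  (∀ (k : Fin j) (i : Bool), Topology.IsOpenEmbedding (fun q : U1 => psi1 D j k i q)) ∧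
  (∀ p : Bl D j, p.1.1 ∈ U0 D j → psi0 D j p.1.1 = p) ∧
  (∀ (p : Bl D j) (k : Fin j) (i : Bool) (q : E4), D.w k • sg i q = p.1.2 k →
    ‖p.1.1 - D.P k‖ < 8 * D.w k → ∃ q' ∈ U1, q' 2 = q 2 ∧ q' 3 = q 3 ∧ psi1 D j k i q' = p) ∧
  (∀ (k : Fin j) (i : Bool) (q : E4), q ∈ U1 → (q 0 ≠ 0 ∨ q 1 ≠ 0) →
    cm D k i q ∈ U0 D j ∧ psi0 D j (cm D k i q) = psi1 D j k i q) ∧
  ∀ p : Bl D j, ∃ C ∈ atl D j, p ∈ C.ψ '' C.U

/-- the transition condition in terms of fields of bilinear forms -/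
def TransE {M : Type} (U : Set E4) (ψ : E4 → M) (G : E4 → Bil E4)
    (U' : Set E4) (ψ' : E4 → M) (G' : E4 → Bil E4) : Prop :=
  ∃ f : E4 → E4, ContDiffOn ℝ ∞ f (U ∩ ψ ⁻¹' (ψ' '' U')) ∧
    ∀ q ∈ U ∩ ψ ⁻¹' (ψ' '' U'), f q ∈ U' ∧ ψ' (f q) = ψ q ∧
      ∀ V W, G q V W = G' (f q) (fderiv ℝ f q V) (fderiv ℝ f q W)

/-- MKC: from fields of bilinear forms to components -/
def MkcStmt : Prop :=
  ∀ (M : Type) [TopologicalSpace M] (U : Set E4) (ψ : E4 → M) (G : E4 → Bil E4),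
    IsMetricOn G U →
    IsOpen (mkC U ψ G).U ∧
    (∀ i j, ContDiffOn ℝ ∞ (fun y => (mkC U ψ G).g y i j) (mkC U ψ G).U) ∧
    (∀ y ∈ (mkC U ψ G).U, ∀ i j, (mkC U ψ G).g y i j = (mkC U ψ G).g y j i) ∧
    (∀ y ∈ (mkC U ψ G).U, ∀ v, v ≠ 0 → 0 < (mkC U ψ G).quad y v) ∧
    (∀ q ∈ U, ∀ V : E4, ∑ i, ∑ j, ricci (mkC U ψ G).g i j (eqE 4 q) * V i * V j
      = ric G q V V) ∧
    (Topology.IsOpenEmbedding (fun q : U => ψ q) →
      Topology.IsOpenEmbedding (fun y : (mkC U ψ G).U => (mkC U ψ G).ψ y)) ∧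
    ∀ (U' : Set E4) (ψ' : E4 → M) (G' : E4 → Bil E4), IsMetricOn G' U' →
      Topology.IsOpenEmbedding (fun q : U => ψ q) → Topology.IsOpenEmbedding (fun q : U' => ψ' q) →
      TransE U ψ G U' ψ' G' →
      ∃ f : (Fin 4 → ℝ) → Fin 4 → ℝ,
        ContDiffOn ℝ ∞ f ((mkC U ψ G).U ∩ (mkC U ψ G).ψ ⁻¹' ((mkC U' ψ' G').ψ '' (mkC U' ψ' G').U)) ∧
        ∀ y ∈ (mkC U ψ G).U ∩ (mkC U ψ G).ψ ⁻¹' ((mkC U' ψ' G').ψ '' (mkC U' ψ' G').U),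
          f y ∈ (mkC U' ψ' G').U ∧ (mkC U' ψ' G').ψ (f y) = (mkC U ψ G).ψ y ∧
          ∀ i j, (mkC U ψ G).g y i j = ∑ k, ∑ l, (mkC U' ψ' G').g (f y) k l *
            fderiv ℝ f y (Pi.single i 1) k * fderiv ℝ f y (Pi.single j 1) l

/-- G1M: the metric near the exceptional spheres -/
def G1mStmt : Prop := ∀ (D : MetricData) (j : ℕ) (k : Fin j) (i : Bool),
  IsMetricOn (G1 D j k i) U1 ∧
  ∀ q ∈ U1, ∀ V, -(G1 D j k i q V V) ≤ ric (G1 D j k i) q V V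

/-- G1B: bounds for the metric near the exceptional spheres -/
def G1bStmt : Prop := ∀ (D : MetricData) (j : ℕ) (k : Fin j) (i : Bool) (q : E4), q ∈ U1 → ∀ V,
  D.c0 * ‖fderiv ℝ (cm D k i) q V‖ ^ 2 ≤ G1 D j k i q V V ∧
  D.c1 * (D.w k * ‖fderiv ℝ (sg i) q V‖) ^ 2 ≤ G1 D j k i q V V ∧
  (q 0 ^ 2 + q 1 ^ 2 ≤ 1 → q 2 ^ 2 + q 3 ^ 2 ≤ 4 →
    G1 D j k i q V V ≤ 25 * D.C0 * (D.w k) ^ 2 * ‖V‖ ^ 2) ∧
  ∀ l : Fin j, l ≠ k → DifferentiableAt ℝ (fun q => D.w l • hd (cm D k i q - D.P l)) q ∧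
    D.c0 * ‖fderiv ℝ (fun q => D.w l • hd (cm D k i q - D.P l)) q V‖ ^ 2 ≤ 16 * G1 D j k i q V V

/-- TR1: transitions between the main chart and the other ones -/
def Tr1Stmt : Prop := ∀ (D : MetricData) (j : ℕ) (k : Fin j) (i : Bool),
  TransE (U0 D j) (psi0 D j) (D.g j) U1 (psi1 D j k i) (G1 D j k i) ∧
  TransE U1 (psi1 D j k i) (G1 D j k i) (U0 D j) (psi0 D j) (D.g j)

/-- TR2: transitions between the charts near the exceptional spheres -/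
def Tr2Stmt : Prop := ∀ (D : MetricData) (j : ℕ) (k l : Fin j) (i i' : Bool),
  TransE U1 (psi1 D j k i) (G1 D j k i) U1 (psi1 D j l i') (G1 D j l i')

/-! ## C. distances of the blow-ups -/

/-- LEN: general facts on lengths -/
def LenStmt : Prop := ∀ (M : Type) (A : Set (Chart 4 M)),
  (∀ x y z L L', IsLen A x y L → IsLen A y z L' → IsLen A x z (L + L')) ∧
  (∀ x y L, IsLen A x y L → IsLen A y x L) ∧
  (∀ x y L, IsLen A x y L → 0 ≤ L) ∧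
  (∀ (U : Set E4) (ψ : E4 → M) (G : E4 → Bil E4), mkC U ψ G ∈ A → ∀ x y L,
    ESeg U ψ G x y L → IsLen A x y L) ∧
  ((∀ x y, ∃ L, IsLen A x y L) →
    (∀ x y, IsGLB {L | IsLen A x y L} (sInf {L | IsLen A x y L})) ∧
    (∀ x, sInf {L | IsLen A x x L} = 0) ∧
    (∀ x y, sInf {L | IsLen A x y L} = sInf {L | IsLen A y x L}) ∧
    ∀ x y z, sInf {L | IsLen A x z L} ≤ sInf {L | IsLen A x y L} + sInf {L | IsLen A y z L})

/-- SLO: a function which is Lipschitz in a chart -/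
def SloStmt : Prop := ∀ (M F : Type) [NormedAddCommGroup F] [NormedSpace ℝ F]
  (U : Set E4) (ψ : E4 → M) (G : E4 → Bil E4) (f : M → F) (κ : ℝ), 0 ≤ κ → IsOpen U →
  ContinuousOn G U → (∀ q ∈ U, DifferentiableAt ℝ (fun q => f (ψ q)) q) →
  (∀ q ∈ U, ∀ V, ‖fderiv ℝ (fun q => f (ψ q)) q V‖ ≤ κ * √(G q V V)) →
  ∀ x y L, ESeg U ψ G x y L → ‖f x - f y‖ ≤ κ * L

/-- SUP: the length of a straight segment in a chart -/
def SupStmt : Prop := ∀ (M : Type) (U : Set E4) (ψ : E4 → M) (G : E4 → Bil E4) (q q' : E4) (B : ℝ),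
  0 ≤ B → segment ℝ q q' ⊆ U → (∀ x ∈ segment ℝ q q', G x (q' - q) (q' - q) ≤ B ^ 2) →
  ∃ L, ESeg U ψ G (ψ q) (ψ q') L ∧ L ≤ B

/-- LB: lower bound for lengths -/
def LbStmt : Prop := ∀ D : MetricData, ∃ c > 0, ∀ (j : ℕ) (x y : Bl D j) (L : ℝ),
  IsLen (atl D j) x y L → c * dist x y ≤ L

/-- INB: short curves over a ball -/
def InbStmt : Prop := ∀ D : MetricData, ∃ C > 0, ∀ (j : ℕ) (k : Fin j) (x y : Bl D j),
  ‖x.1.1 - D.P k‖ ≤ D.w k → ‖y.1.1 - D.P k‖ ≤ D.w k →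
  ∃ L, IsLen (atl D j) x y L ∧ L ≤ C * dist x y

/-- OUT: short curves between points outside the balls -/
def OutStmt : Prop := ∀ D : MetricData, ∃ C > 0, ∀ (j : ℕ) (X Y : E4),
  (∀ k < j, D.w k ≤ ‖X - D.P k‖) → (∀ k < j, D.w k ≤ ‖Y - D.P k‖) →
  ∃ L, IsLen (atl D j) (psi0 D j X) (psi0 D j Y) L ∧ L ≤ C * ‖X - Y‖

/-- UB: short curves -/
def UbStmt : Prop := ∀ D : MetricData, ∃ C > 0, ∀ (j : ℕ) (x y : Bl D j),
  ∃ L, IsLen (atl D j) x y L ∧ L ≤ C * dist x y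

/-- DDB: the Riemannian distances are uniformly bi-Lipschitz to the distance of the product -/
def DdbStmt : Prop := ∀ D : MetricData, ∃ c C : ℝ, 0 < c ∧ 0 < C ∧ ∀ j, IsBil (dd D j) c C ∧
  ∀ x y, IsGLB {L | IsLen (atl D j) x y L} (dd D j x y)

/-- CLO: closedness -/
def CloStmt : Prop := ∀ D : MetricData, (∀ j, IsClosed (Bl D j)) ∧ IsClosed (BlI D)

/-- BIC: completeness for the distance `bilMet` -/
def BicStmt : Prop := ∀ (Y : Type) [MetricSpace Y] (d : Y → Y → ℝ) (c C : ℝ) (h : IsBil d c C),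
  CompleteSpace Y → @CompleteSpace Y (bilMet h).toPseudoMetricSpace.toUniformSpace

/-- RMJ: the blow-ups are Riemannian manifolds with `Ric ≥ -1` -/
def RmjStmt : Prop := ∀ (D : MetricData) (j : ℕ) (c C : ℝ) (h : IsBil (dd D j) c C),
  (∀ x y, IsGLB {L | IsLen (atl D j) x y L} (dd D j x y)) →
  @IsRicciManifold 4 1 (Bl D j) (bilMet h) (atl D j)

/-! ## D. the limit -/

/-- PRJ -/
def PrjStmt : Prop := ∀ D : MetricData,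
  (∀ j y y', dist (prj D j y) (prj D j y') ≤ dist y y') ∧
  (∀ j p, prj D j (sec D j p) = p) ∧
  (∀ ε > 0, ∃ N, ∀ j ≥ N, ∀ y y', dist y y' ≤ dist (prj D j y) (prj D j y') + ε) ∧
  (∀ ε > 0, ∃ N, ∀ j ≥ N, ∀ y, dist (sec D j (prj D j y)) y ≤ ε) ∧
  (∀ j X, prj D j (psiI D X) = psi0 D j X) ∧ ∀ j X, sec D j (psi0 D j X) = psiI D X

/-- TBD: bounded subsets are totally bounded -/
def TbdStmt : Prop := ∀ (D : MetricData) (R ε : ℝ), 0 < ε → ∃ F : Finset (BlI D),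
  ∀ y : BlI D, ‖y.1.1‖ ≤ R → ∃ y' ∈ F, dist y y' < ε

/-- LIM: a locally uniformly convergent subsequence of the distances -/
def LimStmt : Prop := ∀ (D : MetricData) (c C : ℝ), 0 < C → (∀ j, IsBil (dd D j) c C) →
  ∃ (σ : ℕ → ℕ) (d : BlI D → BlI D → ℝ), StrictMono σ ∧ IsBil d c C ∧
    ∀ R ε : ℝ, 0 < ε → ∃ N, ∀ i ≥ N, ∀ y y' : BlI D, ‖y.1.1‖ ≤ R → ‖y'.1.1‖ ≤ R →
      |dd D (σ i) (prj D (σ i) y) (prj D (σ i) y') - d y y'| < ε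

/-- PGH -/
def PghStmt : Prop := ∀ (D : MetricData) (c C : ℝ) (h : ∀ j, IsBil (dd D j) c C) (σ : ℕ → ℕ)
  (d : BlI D → BlI D → ℝ) (hd : IsBil d c C), 0 < C → StrictMono σ →
  (∀ R ε : ℝ, 0 < ε → ∃ N, ∀ i ≥ N, ∀ y y' : BlI D, ‖y.1.1‖ ≤ R → ‖y'.1.1‖ ≤ R →
      |dd D (σ i) (prj D (σ i) y) (prj D (σ i) y') - d y y'| < ε) →
  @PGH (fun i => Bl D (σ i)) (fun i => bilMet (h (σ i))) (fun i => psi0 D (σ i) X0)
    (BlI D) (bilMet hd) (psiI D X0)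

/-- VOL: the volume of the unit balls -/
def VolStmt : Prop := ∀ (D : MetricData) (c C : ℝ), 0 < C → ∃ v > 0, ∀ (j : ℕ)
  (h : IsBil (dd D j) c C), ENNReal.ofReal v <
    @hvol 4 (Bl D j) (bilMet h) (@ball (Bl D j) (bilMet h).toPseudoMetricSpace (psi0 D j X0) 1)

/-- ILM: the limit space is a noncollapsed Ricci limit -/
def IlmStmt : Prop := ∀ D : MetricData, ∃ (d : BlI D → BlI D → ℝ) (c C : ℝ) (hd : IsBil d c C),
  ∃ v > 0, @IsNoncollapsedRicciLimit 4 1 v (BlI D) (bilMet hd) (psiI D X0)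

/-! ## E. detection -/

/-- S2N: the identity of the 2-sphere is not homotopic to a constant -/
def S2nStmt : Prop := ¬ (ContinuousMap.id (sphere (0 : E3) 1)).Nullhomotopic

/-- OPN: dense subspaces which are topological manifolds are open -/
def OpnStmt : Prop := ∀ (X : Type) [MetricSpace X] (T : Set X), Dense T →
  Nonempty (ChartedSpace (EuclideanSpace ℝ (Fin 4)) T) → IsOpen T

/-- CHN: small contractible neighbourhoods in topological manifolds -/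
def ChnStmt : Prop := ∀ (X : Type) [MetricSpace X] (T : Set X), IsOpen T →
  Nonempty (ChartedSpace (EuclideanSpace ℝ (Fin 4)) T) → ∀ x ∈ T, ∀ W ∈ 𝓝 x,
  ∃ O : Set X, O ⊆ W ∧ O ⊆ T ∧ x ∈ O ∧ IsOpen O ∧ ContractibleSpace O

/-- TUB: small tubes -/
def TubStmt : Prop := ∀ (D : MetricData) (X : E4) (N : ℕ) (ε : ℝ), 0 < ε →
  (∀ k < N, X ≠ D.P k) → (∀ k ≥ N, 4 * D.w k < ε) →
  ∃ δ > 0, ∀ y y' : BlI D, ‖y.1.1 - X‖ < δ → ‖y'.1.1 - X‖ < δ → dist y y' < ε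

/-- APP: the points over the complement of the centres are dense -/
def AppStmt : Prop := ∀ (D : MetricData) (y : BlI D) (ε : ℝ), 0 < ε →
  ∃ y' : BlI D, dist y y' < ε ∧ ∀ k, y'.1.1 ≠ D.P k

/-- SPH: the exceptional spheres and the direction maps -/
def SphStmt : Prop := ∀ (D : MetricData) (l : ℕ), Continuous (sphI D l) ∧
  Continuous (fun y : BlI D => (D.w l)⁻¹ • y.1.2 l) ∧
  (∀ y : BlI D, ‖(D.w l)⁻¹ • y.1.2 l‖ = 1) ∧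
  ∀ v : sphere (0 : E3) 1, (D.w l)⁻¹ • (sphI D l v).1.2 l = (v : E3) ∧ (sphI D l v).1.1 = D.P l

/-- DNS: complements of small sets are dense -/
def DnsStmt : Prop := ∀ (D : MetricData) (S : Set (BlI D)), dimH S ≤ 1 → Dense Sᶜ

/-- KPT: small sets do not contain all the points over `K` -/
def KptStmt : Prop := ∀ (D : MetricData) (S : Set (BlI D)), dimH S ≤ 1 → ∃ y ∉ S, y.1.1 ∈ D.K

/-- DET: no complement of a small set is a topological manifold -/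
def DetStmt : Prop := ∀ (D : MetricData) (S : Set (BlI D)), dimH S ≤ 1 →
  IsEmpty (ChartedSpace (EuclideanSpace ℝ (Fin 4)) (Sᶜ : Set (BlI D)))

/-- BIH: Hausdorff dimension for the distance `bilMet` -/
def BihStmt : Prop := ∀ (Y : Type) [MetricSpace Y] (d : Y → Y → ℝ) (c C : ℝ) (h : IsBil d c C)
  (S : Set Y), dimH S ≤ @dimH Y (bilMet h).toEMetricSpace S

/-- DIF: Ricci tensor of a pullback, continuity of the Ricci tensor, and the density principle -/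
def DifStmt : Prop :=
  (∀ (H : E4 → Bil E4) (f : E4 → E4) (U U' : Set E4), IsMetricOn H U' → IsOpen U →
    ContDiffOn ℝ ∞ f U → MapsTo f U U' → (∀ y ∈ U, (fderiv ℝ f y).IsInvertible) →
    IsMetricOn (pullb H f) U ∧
    ∀ y ∈ U, ∀ V W, ric (pullb H f) y V W = ric H (f y) (fderiv ℝ f y V) (fderiv ℝ f y W)) ∧
  (∀ (H : E4 → Bil E4) (U : Set E4), IsMetricOn H U → ∀ V W,
    ContinuousOn (fun x => ric H x V W) U) ∧
  ∀ (F F' : E4 → ℝ) (U : Set E4), IsOpen U → ContinuousOn F U → ContinuousOn F' U →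
    (∀ q ∈ U, (q 0 ≠ 0 ∨ q 1 ≠ 0) → F q ≤ F' q) → ∀ q ∈ U, F q ≤ F' q

end Pool.Agent.RLim
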